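import Mathlib
import Pool.Agent.X58.IV.Prm

set_option autoImplicit false
set_option maxHeartbeats 4000000

/-!
# MP_5f6ee5_nt: narrow progressions of primes between consecutive odd squares

For a positive proportion of the `k` the number `P_k` of the primes between `(2 k - 1) ^ 2` and
`(2 k + 1) ^ 2` is at least `ρ k / log k`, and every positive proportion of these primes contains
arbitrarily long arithmetic progressions with a common difference at most a power of `log k`.
-/

namespace Pool.Agent.Results.MP_5f6ee5_nt.NarrowPrimes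

open Finset
open Pool.Agent.X58.IV

/-- the primes strictly between `(2k-1)²` and `(2k+1)²` -/
def primesI (k : ℕ) : Finset ℕ := (Ioo ((2 * k - 1) ^ 2) ((2 * k + 1) ^ 2)).filter Nat.Prime

/-- `U` contains `m` terms of an arithmetic progression with common difference in `[1, D]` -/
def HasNarrowAP (m : ℕ) (D : ℝ) (U : Finset ℕ) : Prop :=
  ∃ a d : ℕ, 1 ≤ d ∧ (d : ℝ) ≤ D ∧ ∀ j < m, a + j * d ∈ U

open Classical in
/-- the `k` in `(K, 2 K]` with at least `ρ k / log k` primes in `I_k` -/
noncomputable def many (ρ : ℝ) (K : ℕ) : Finset ℕ :=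
  (Ioc K (2 * K)).filter (fun k : ℕ => ρ * k / Real.log k ≤ ((primesI k).card : ℝ))

/-- dense sets of primes between two consecutive odd squares contain narrow progressions -/
theorem narrow (m : ℕ) (ρ : ℝ) (hρ : 0 < ρ) : ∃ B k₀ : ℕ, ∀ k : ℕ, k₀ ≤ k → ∀ U ⊆ primesI k,
    ρ * k / Real.log k ≤ U.card → HasNarrowAP m (Real.log k ^ B) U := by
  obtain ⟨B, X₀, h⟩ := primes_ap m (ρ / 8) (by positivity)
  refine ⟨2 * B, max X₀ 9, fun k hk U hU hc => ?_⟩
  have hk9 : 9 ≤ k := (le_max_right _ _).trans hk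
  have hkX : X₀ ≤ k := (le_max_left _ _).trans hk
  have hkr : (9 : ℝ) ≤ k := by exact_mod_cast hk9
  have hlogk : 1 < Real.log k := by
    rw [Real.lt_log_iff_exp_lt (by linarith)]
    exact Real.exp_one_lt_d9.trans (by linarith)
  have hlog8 : Real.log k ≤ Real.log ((8 * k : ℕ) : ℝ) := by
    apply Real.log_le_log (by linarith)
    push_cast
    linarith
  have h1 := h (8 * k) ((2 * k - 1) ^ 2) (by omega) (by
      obtain ⟨j, rfl⟩ : ∃ j, k = j + 9 := ⟨k - 9, by omega⟩
      have e : 2 * (j + 9) - 1 = 2 * j + 17 := by omega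
      rw [e]
      nlinarith) U (by
      intro p hp
      have h2 := mem_filter.1 (hU hp)
      rw [mem_Ioo] at h2
      refine mem_filter.2 ⟨mem_Ioc.2 ⟨h2.1.1, ?_⟩, h2.2⟩
      have h3 := h2.1.2
      obtain ⟨j, rfl⟩ : ∃ j, k = j + 1 := ⟨k - 1, by omega⟩
      have e : 2 * (j + 1) - 1 = 2 * j + 1 := by omega
      rw [e]
      nlinarith) (by
      refine le_trans ?_ hc
      push_cast
      have e : ρ / 8 * (8 * (k : ℝ)) = ρ * k := by ring
      rw [e]
      push_cast at hlog8
      exact div_le_div_of_nonneg_left (by positivity) (by linarith) hlog8)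
  obtain ⟨a, d, hd1, hd2, had⟩ := h1
  refine ⟨a, d, hd1, hd2.trans ?_, had⟩
  have h8 : Real.log ((8 * k : ℕ) : ℝ) ≤ Real.log k ^ 2 := by
    have h9 : Real.log ((8 * k : ℕ) : ℝ) ≤ 2 * Real.log k := by
      have : Real.log ((8 * k : ℕ) : ℝ) ≤ Real.log ((k : ℝ) ^ 2) := by
        apply Real.log_le_log (by positivity)
        push_cast
        nlinarith
      rwa [Real.log_pow] at this
    have h10 : 2 ≤ Real.log k := by
      rw [Real.le_log_iff_exp_le (by linarith)]
      have h11 : Real.exp 2 = Real.exp 1 * Real.exp 1 := by rw [← Real.exp_add]; norm_num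
      have h12 := Real.exp_one_lt_d9
      have h13 := Real.exp_pos 1
      rw [h11]
      nlinarith
    nlinarith
  calc Real.log ((8 * k : ℕ) : ℝ) ^ B ≤ (Real.log k ^ 2) ^ B :=
        pow_le_pow_left₀ (by linarith) h8 B
    _ = Real.log k ^ (2 * B) := by rw [← pow_mul]

/-- a positive proportion of the intervals has at least `ρ k / log k` primes -/
theorem positive : ∃ (ρ δ : ℝ) (K₀ : ℕ), 0 < ρ ∧ 0 < δ ∧ ∀ K : ℕ, K₀ ≤ K →
    δ * K ≤ ((many ρ K).card : ℝ) := by
  classical
  obtain ⟨C, hC, X₁, hup⟩ := primes_up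
  obtain ⟨x₀, hlow⟩ := primes_low
  refine ⟨1 / 8, 1 / (64 * C), max (max X₁ x₀) 9, by norm_num, by positivity, fun K hK => ?_⟩
  have hK9 : 9 ≤ K := (le_max_right _ _).trans hK
  have hKX : X₁ ≤ K := (le_max_left _ _).trans ((le_max_left _ _).trans hK)
  have hKx : x₀ ≤ K := (le_max_right _ _).trans ((le_max_left _ _).trans hK)
  have hKr : (9 : ℝ) ≤ K := by exact_mod_cast hK9
  have hlogK : 1 < Real.log K := by
    rw [Real.lt_log_iff_exp_lt (by linarith)]
    exact Real.exp_one_lt_d9.trans (by linarith)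
  set G := (Ioc K (2 * K)).filter
    (fun k : ℕ => (1 / 8 : ℝ) * k / Real.log k ≤ ((primesI k).card : ℝ)) with hG
  have hGm : many (1 / 8) K = G := by
    unfold many
    rw [hG]
  rw [hGm]
  -- upper bound for each interval
  have hupk : ∀ k ∈ Ioc K (2 * K), ((primesI k).card : ℝ) ≤ 16 * C * K / Real.log K := by
    intro k hk
    rw [mem_Ioc] at hk
    have h1 := hup (8 * k) ((2 * k - 1) ^ 2) (by omega) (by
      obtain ⟨j, rfl⟩ : ∃ j, k = j + 9 := ⟨k - 9, by omega⟩
      have e : 2 * (j + 9) - 1 = 2 * j + 17 := by omega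
      rw [e]
      nlinarith)
    have h2 : (primesI k).card ≤ ((Ioc ((2 * k - 1) ^ 2) ((2 * k - 1) ^ 2 + 8 * k)).filter Nat.Prime).card := by
      apply card_le_card
      intro p hp
      have h2 := mem_filter.1 hp
      rw [mem_Ioo] at h2
      refine mem_filter.2 ⟨mem_Ioc.2 ⟨h2.1.1, ?_⟩, h2.2⟩
      have h3 := h2.1.2
      obtain ⟨j, rfl⟩ : ∃ j, k = j + 1 := ⟨k - 1, by omega⟩
      have e : 2 * (j + 1) - 1 = 2 * j + 1 := by omega
      rw [e]
      nlinarith
    have h2' : ((primesI k).card : ℝ) ≤ C * ((8 * k : ℕ) : ℝ) / Real.log ((8 * k : ℕ) : ℝ) :=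
      le_trans (by exact_mod_cast h2) h1
    refine h2'.trans ?_
    have hk1 : (K : ℝ) ≤ k := by exact_mod_cast hk.1.le
    have hk2 : (k : ℝ) ≤ 2 * K := by exact_mod_cast hk.2
    have h3 : Real.log K ≤ Real.log ((8 * k : ℕ) : ℝ) := by
      apply Real.log_le_log (by linarith)
      push_cast
      linarith
    have h4 : C * ((8 * k : ℕ) : ℝ) ≤ 16 * C * K := by
      push_cast
      nlinarith
    calc C * ((8 * k : ℕ) : ℝ) / Real.log ((8 * k : ℕ) : ℝ) ≤ 16 * C * K / Real.log ((8 * k : ℕ) : ℝ) := by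
          apply div_le_div_of_nonneg_right h4; linarith
      _ ≤ _ := by
          apply div_le_div_of_nonneg_left (by positivity) (by linarith) h3
  -- lower bound for the sum
  have hsum : (K : ℝ) ^ 2 / (2 * Real.log K) ≤ ∑ k ∈ Ioc K (2 * K), ((primesI k).card : ℝ) := by
    have h1 := hlow ((2 * K + 1) ^ 2) (by nlinarith)
    have h2 : ((Ioc ((2 * K + 1) ^ 2) (2 * (2 * K + 1) ^ 2)).filter Nat.Prime).card ≤
        ∑ k ∈ Ioc K (2 * K), (primesI k).card := by
      refine le_trans (card_le_card ?_) card_biUnion_le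
      intro p hp
      rw [mem_filter, mem_Ioc] at hp
      obtain ⟨⟨hp1, hp2⟩, hpp⟩ := hp
      have hs1 : Nat.sqrt p * Nat.sqrt p ≤ p := Nat.sqrt_le p
      have hs2 : p < (Nat.sqrt p + 1) * (Nat.sqrt p + 1) := Nat.lt_succ_sqrt p
      have hs3 : 2 * K + 1 ≤ Nat.sqrt p := Nat.le_sqrt'.2 hp1.le
      have hs4 : Nat.sqrt p < 4 * K + 1 := Nat.sqrt_lt'.2 (by nlinarith)
      generalize hsq : Nat.sqrt p = s at *
      rw [mem_biUnion]
      refine ⟨(s + 1) / 2, mem_Ioc.2 ⟨by omega, by omega⟩, ?_⟩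
      refine mem_filter.2 ⟨mem_Ioo.2 ?_, hpp⟩
      have hne : s * s ≠ p := by
        rintro rfl
        exact (Nat.not_prime_mul (by omega) (by omega)) hpp
      rcases Nat.even_or_odd' s with ⟨j, hj | hj⟩
      · have e1 : (s + 1) / 2 = j := by omega
        rw [e1]
        obtain ⟨i, rfl⟩ : ∃ i, j = i + 1 := ⟨j - 1, by omega⟩
        have e2 : 2 * (i + 1) - 1 = 2 * i + 1 := by omega
        rw [e2]
        subst hj
        constructor <;> nlinarith
      · have e1 : (s + 1) / 2 = j + 1 := by omega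
        rw [e1]
        have e2 : 2 * (j + 1) - 1 = 2 * j + 1 := by omega
        rw [e2]
        subst hj
        have : (2 * j + 1) * (2 * j + 1) < p := lt_of_le_of_ne hs1 hne
        constructor <;> nlinarith
    have h3 : ((((Ioc ((2 * K + 1) ^ 2) (2 * (2 * K + 1) ^ 2)).filter Nat.Prime).card : ℕ) : ℝ) ≤
        ∑ k ∈ Ioc K (2 * K), ((primesI k).card : ℝ) := by exact_mod_cast h2
    refine le_trans (le_trans ?_ h1) h3
    have h4 : Real.log (((2 * K + 1) ^ 2 : ℕ) : ℝ) ≤ 4 * Real.log K := by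
      have h5 : Real.log (((2 * K + 1) ^ 2 : ℕ) : ℝ) ≤ Real.log ((K : ℝ) ^ 4) := by
        apply Real.log_le_log (by positivity)
        have h6 : (2 * K + 1) ^ 2 ≤ K ^ 4 := by
          calc (2 * K + 1) ^ 2 ≤ (K * K) ^ 2 := Nat.pow_le_pow_left (by nlinarith) 2
            _ = K ^ 4 := by ring
        exact_mod_cast h6
      rw [Real.log_pow] at h5
      simpa using h5
    have h7 : 0 < Real.log (((2 * K + 1) ^ 2 : ℕ) : ℝ) := by
      apply Real.log_pos
      have : 1 < (2 * K + 1) ^ 2 := by nlinarith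
      exact_mod_cast this
    rw [div_le_div_iff₀ (by positivity) (by positivity)]
    push_cast at h4 h7 ⊢
    nlinarith
  have hcardI : (Ioc K (2 * K)).card = K := by rw [Nat.card_Ioc]; omega
  have hsplit : ∑ k ∈ Ioc K (2 * K), ((primesI k).card : ℝ) ≤
      G.card * (16 * C * K / Real.log K) + (K : ℝ) * ((K : ℝ) / (4 * Real.log K)) := by
    rw [← sum_filter_add_sum_filter_not (Ioc K (2 * K))
      (fun k : ℕ => (1 / 8 : ℝ) * k / Real.log k ≤ ((primesI k).card : ℝ))]
    apply add_le_add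
    · calc _ ≤ ∑ k ∈ G, (16 * C * K / Real.log K) := by
            apply sum_le_sum
            intro k hk
            exact hupk k (mem_filter.1 hk).1
        _ = _ := by rw [sum_const, nsmul_eq_mul]
    · calc _ ≤ ∑ k ∈ (Ioc K (2 * K)).filter
              (fun k : ℕ => ¬ ((1 / 8 : ℝ) * k / Real.log k ≤ ((primesI k).card : ℝ))),
              ((K : ℝ) / (4 * Real.log K)) := by
            apply sum_le_sum
            intro k hk
            rw [mem_filter, mem_Ioc, not_le] at hk
            obtain ⟨⟨hk1, hk2⟩, hk3⟩ := hk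
            refine hk3.le.trans ?_
            have hk1' : (K : ℝ) ≤ k := by exact_mod_cast hk1.le
            have hk2' : (k : ℝ) ≤ 2 * K := by exact_mod_cast hk2
            have h3 : Real.log K ≤ Real.log k := Real.log_le_log (by linarith) hk1'
            calc 1 / 8 * (k : ℝ) / Real.log k ≤ 1 / 8 * (k : ℝ) / Real.log K := by
                  apply div_le_div_of_nonneg_left (by positivity) (by linarith) h3
              _ ≤ 1 / 8 * (2 * K) / Real.log K := by gcongr
              _ = _ := by field_simp; norm_num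
        _ ≤ _ := by
            rw [sum_const, nsmul_eq_mul]
            apply mul_le_mul_of_nonneg_right _ (by positivity)
            exact_mod_cast (card_le_card (filter_subset _ _)).trans hcardI.le
  have hfin := hsum.trans hsplit
  have hL : 0 < Real.log K := by linarith
  have hK0 : (0 : ℝ) < K := by linarith
  have e1 : (K : ℝ) ^ 2 / (2 * Real.log K) - (K : ℝ) * ((K : ℝ) / (4 * Real.log K)) =
      (K : ℝ) ^ 2 / (4 * Real.log K) := by
    field_simp
    ring
  have e2 : (K : ℝ) ^ 2 / (4 * Real.log K) ≤ G.card * (16 * C * K / Real.log K) := by linarith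
  have e3 : (G.card : ℝ) * (16 * C * K / Real.log K) = (G.card * (64 * C * K)) / (4 * Real.log K) := by
    field_simp
    ring
  rw [e3, div_le_div_iff_of_pos_right (by positivity)] at e2
  rw [div_mul_eq_mul_div, div_le_iff₀ (by positivity)]
  have e4 : (K : ℝ) * K ≤ (G.card * (64 * C)) * K := by nlinarith
  have e5 := le_of_mul_le_mul_right e4 hK0
  linarith

open Classical in
/-- the `k` in `(K, 2 K]` with at least `ρ k / log k` primes in `I_k` and such that every set of at least
`η P_k` of the primes of `I_k` contains `m` terms of an arithmetic progression with common difference in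
`[1, (log k) ^ B]` -/
noncomputable def good (ρ η : ℝ) (m B K : ℕ) : Finset ℕ :=
  (Ioc K (2 * K)).filter (fun k : ℕ => ρ * k / Real.log k ≤ ((primesI k).card : ℝ) ∧
    ∀ U ⊆ primesI k, η * ((primesI k).card : ℝ) ≤ U.card → HasNarrowAP m (Real.log k ^ B) U)

/-- **Narrow progressions of primes between consecutive odd squares.** -/
theorem result : ∃ ρ δ : ℝ, 0 < ρ ∧ 0 < δ ∧ ∀ (m : ℕ) (η : ℝ), 0 < η → ∃ B K₀ : ℕ,
    ∀ K : ℕ, K₀ ≤ K → δ * K ≤ ((good ρ η m B K).card : ℝ) := by
  classical
  obtain ⟨ρ, δ, K₀, hρ, hδ, h⟩ := positive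
  refine ⟨ρ, δ, hρ, hδ, fun m η hη => ?_⟩
  obtain ⟨B, k₀, hB⟩ := narrow m (η * ρ) (by positivity)
  refine ⟨B, max K₀ k₀, fun K hK => (h K ((le_max_left _ _).trans hK)).trans ?_⟩
  have h1 : many ρ K ⊆ good ρ η m B K := by
    intro k hk
    simp only [many, mem_filter, mem_Ioc] at hk
    simp only [good, mem_filter, mem_Ioc]
    refine ⟨hk.1, hk.2, fun U hU hc => ?_⟩
    have hk0 : k₀ ≤ k := ((le_max_right _ _).trans hK).trans hk.1.1.le
    refine hB k hk0 U hU (le_trans ?_ hc)
    calc η * ρ * k / Real.log k = η * (ρ * k / Real.log k) := by ring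
      _ ≤ η * ((primesI k).card : ℝ) := mul_le_mul_of_nonneg_left hk.2 hη.le
  exact_mod_cast card_le_card h1

end Pool.Agent.Results.MP_5f6ee5_nt.NarrowPrimes
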