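import Mathlib
import Pool.Agent.X58.IV.Forms

set_option autoImplicit false
set_option maxHeartbeats 4000000

/-!
# MP_5f6ee5_nt: clusters of almost primes in several intervals between consecutive odd squares at once

The starting library `X58.IV.Forms` counts the integers of a short interval at which finitely many linear
forms have no small prime factors. Here the forms are `n + h + (2 k - 1) ^ 2` for `k` in an arbitrary set
`S` of at most `M` integers and `h` in a set `H` of at most `t` shifts; there is no local obstruction,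
because `-(2 k - 1) ^ 2` is never a non-square modulo the odd primes `p ≤ M t`.
-/

namespace Pool.Agent.Results.MP_5f6ee5_nt.RoughClusters

open Finset
open Pool.Agent.X58.IV

/-- all prime factors of `v` exceed `z` -/
def Rough (z : ℝ) (v : ℕ) : Prop := ∀ p : ℕ, p.Prime → p ∣ v → z < p

/-- `U` contains `m` terms of an arithmetic progression with common difference in `[1, D]` -/
def HasNarrowAP (m : ℕ) (D : ℝ) (U : Finset ℕ) : Prop :=
  ∃ a d : ℕ, 1 ≤ d ∧ (d : ℝ) ≤ D ∧ ∀ j < m, a + j * d ∈ U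

open Classical in
/-- the `n ≤ X` such that all the numbers `(2k-1)² + n + h`, `k ∈ S`, `h ∈ H`, have all their prime
factors above `X ^ κ` -/
noncomputable def RR (S H : Finset ℕ) (κ : ℝ) (X : ℕ) : Finset ℕ :=
  (Icc 1 X).filter (fun n => ∀ k ∈ S, ∀ h ∈ H, Rough ((X : ℝ) ^ κ) ((2 * k - 1) ^ 2 + n + h))

/-- the forms -/
def FF (S H : Finset ℕ) : Finset (ℤ × ℤ) :=
  (S ×ˢ H).image (fun x => ((1 : ℤ), (((2 * x.1 - 1) ^ 2 + x.2 : ℕ) : ℤ)))

lemma cardFF (S H : Finset ℕ) (M t : ℕ) (hS : S.card ≤ M) (hH : H.card ≤ t) : (FF S H).card ≤ M * t := by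
  refine card_image_le.trans ?_
  rw [card_product]
  exact Nat.mul_le_mul hS hH

lemma copFF (S H : Finset ℕ) : ∀ L ∈ FF S H, IsCoprime L.1 L.2 := by
  intro L hL
  obtain ⟨x, _, rfl⟩ := mem_image.1 hL
  exact isCoprime_one_left

lemma locFF (S H : Finset ℕ) (M t : ℕ) (hS : S.card ≤ M) (hH : H.card ≤ t) (hk : ∀ k ∈ S, 1 ≤ k)
    (hdiv : ∀ h ∈ H, ∀ p : ℕ, p.Prime → p ≤ M * t → p ∣ h) : Locally (FF S H) := by
  intro p hp
  by_cases hpl : p ≤ M * t
  · rcases hp.eq_two_or_odd' with h2 | hodd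
    · refine ⟨0, ?_⟩
      intro L hL
      obtain ⟨⟨k, h⟩, hx, rfl⟩ := mem_image.1 hL
      rw [mem_product] at hx
      have hkh := hdiv h hx.2 p hp hpl
      have hk1 := hk k hx.1
      intro hd
      have hd' : (p : ℤ) ∣ (((2 * k - 1) ^ 2 + h : ℕ) : ℤ) := by simpa using hd
      have hd2 : p ∣ (2 * k - 1) ^ 2 + h := by exact_mod_cast hd'
      have hd3 : p ∣ (2 * k - 1) ^ 2 := (Nat.dvd_add_left hkh).1 hd2
      have hd4 : p ∣ 2 * k - 1 := hp.dvd_of_dvd_pow hd3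
      rw [h2] at hd4
      have hd5 : 2 ∣ 2 * k - 1 := hd4
      omega
    · have : Fact p.Prime := ⟨hp⟩
      have hp2 : p ≠ 2 := by
        rintro rfl
        exact absurd hodd (by decide)
      obtain ⟨a, ha⟩ := FiniteField.exists_nonsquare (F := ZMod p) (by
        rw [ringChar.eq (ZMod p) p]
        exact hp2)
      refine ⟨(-a).val, ?_⟩
      intro L hL
      obtain ⟨⟨k, h⟩, hx, rfl⟩ := mem_image.1 hL
      rw [mem_product] at hx
      have hkh := hdiv h hx.2 p hp hpl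
      intro hd
      apply ha
      have h1 := (ZMod.intCast_zmod_eq_zero_iff_dvd _ p).2 hd
      have h2 : ((h : ℕ) : ZMod p) = 0 := (ZMod.natCast_eq_zero_iff h p).2 hkh
      push_cast at h1
      rw [ZMod.natCast_val, ZMod.cast_id', id, h2] at h1
      refine ⟨((2 * k - 1 : ℕ) : ZMod p), ?_⟩
      linear_combination -h1
  · have hc : (ZF (FF S H) p).card < p :=
      lt_of_le_of_lt ((card_ZF_le _ (copFF S H) hp).trans (cardFF S H M t hS hH)) (by omega)
    have h3 : ∃ n ∈ range p, n ∉ ZF (FF S H) p := by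
      by_contra hcon
      push Not at hcon
      have h4 : range p ⊆ ZF (FF S H) p := fun n hn => hcon n hn
      have := card_le_card h4
      rw [card_range] at this
      omega
    obtain ⟨n, hn, hn2⟩ := h3
    refine ⟨n, fun L hL hd => hn2 ?_⟩
    have h5 := (mem_ZF (FF S H) hp.pos n).2 ⟨L, hL, hd⟩
    rwa [Nat.mod_eq_of_lt (mem_range.1 hn)] at h5

lemma free_eq (S H : Finset ℕ) (κ : ℝ) (X : ℕ) : Free (FF S H) κ 0 X = RR S H κ X := by
  unfold Free RR
  ext n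
  simp only [mem_filter, mem_Ioc, mem_Icc, zero_add]
  constructor
  · rintro ⟨⟨h1, h2⟩, h3⟩
    refine ⟨⟨h1, h2⟩, fun k hk h hh p hp hd => ?_⟩
    refine h3 _ (mem_image.2 ⟨(k, h), mem_product.2 ⟨hk, hh⟩, rfl⟩) p hp ?_
    have : (p : ℤ) ∣ (((2 * k - 1) ^ 2 + n + h : ℕ) : ℤ) := by exact_mod_cast hd
    convert this using 1
    push_cast
    ring
  · rintro ⟨⟨h1, h2⟩, h3⟩
    refine ⟨⟨h1, h2⟩, fun L hL p hp hd => ?_⟩
    obtain ⟨⟨k, h⟩, hx, rfl⟩ := mem_image.1 hL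
    rw [mem_product] at hx
    refine h3 k hx.1 h hx.2 p hp ?_
    have e : (1 : ℤ) * (n : ℤ) + (((2 * k - 1) ^ 2 + h : ℕ) : ℤ) = (((2 * k - 1) ^ 2 + n + h : ℕ) : ℤ) := by
      push_cast
      ring
    simp only at hd
    rw [e] at hd
    exact_mod_cast hd

/-- **Clusters of almost primes in several intervals between consecutive odd squares at once.** -/
theorem result (M t C : ℕ) : ∃ (κ c : ℝ) (r : ℕ), 0 < κ ∧ 0 < c ∧ ∀ (m : ℕ) (ρ : ℝ), 0 < ρ →
    ∃ B X₀ : ℕ, ∀ X : ℕ, X₀ ≤ X → ∀ S H : Finset ℕ, S.card ≤ M → H.card ≤ t →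
      (∀ h ∈ H, ∀ p : ℕ, p.Prime → p ≤ M * t → p ∣ h) →
      (∀ k ∈ S, 1 ≤ k ∧ k ≤ X ^ C ∧ ∀ h ∈ H, X + h < 8 * k) →
      c * X / Real.log X ^ (M * t) ≤ ((RR S H κ X).card : ℝ) ∧
      (∀ n ∈ RR S H κ X, ∀ k ∈ S, ∀ h ∈ H,
        (2 * k - 1) ^ 2 + n + h ∈ Ioo ((2 * k - 1) ^ 2) ((2 * k + 1) ^ 2) ∧
        ((2 * k - 1) ^ 2 + n + h).primeFactorsList.length ≤ r) ∧
      ∀ U ⊆ RR S H κ X, ρ * ((RR S H κ X).card : ℝ) ≤ U.card → HasNarrowAP m (Real.log X ^ B) U := by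
  obtain ⟨κ, c, hκ, hκ1, hc, hV, hmain⟩ := baseF (M * t)
  obtain ⟨r, hr⟩ := exists_nat_ge ((2 * C + 4 : ℝ) / κ)
  refine ⟨κ, c * c, r, hκ, by positivity, fun m ρ hρ => ?_⟩
  obtain ⟨B, X₀, hB⟩ := hmain m ρ hρ
  refine ⟨B, max X₀ 3, fun X hX S H hS hH hdiv hk => ?_⟩
  have hX3 : 3 ≤ X := (le_max_right _ _).trans hX
  have hXr : (1 : ℝ) < X := by exact_mod_cast (by omega : 1 < X)
  have hloc := locFF S H M t hS hH (fun k h => (hk k h).1) hdiv
  obtain ⟨h1, h2⟩ := hB X 0 ((le_max_left _ _).trans hX) (FF S H) (cardFF S H M t hS hH) (copFF S H) hloc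
  rw [free_eq] at h1 h2
  refine ⟨?_, ?_, ?_⟩
  · have h3 := hV (FF S H) (cardFF S H M t hS hH) (copFF S H) hloc X (by omega)
    refine le_trans ?_ h1
    calc c * c * X / Real.log X ^ (M * t) = c * X * (c / Real.log X ^ (M * t)) := by ring
      _ ≤ _ := by gcongr
  · intro n hn k hkS h hh
    have hn' := hn
    simp only [RR, mem_filter, mem_Icc] at hn'
    obtain ⟨hk1, hkC, hkh⟩ := hk k hkS
    have hkh := hkh h hh
    obtain ⟨j, rfl⟩ : ∃ j, k = j + 1 := ⟨k - 1, by omega⟩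
    have e1 : 2 * (j + 1) - 1 = 2 * j + 1 := by omega
    have hlt : (2 * (j + 1) - 1) ^ 2 + n + h < (2 * (j + 1) + 1) ^ 2 := by
      rw [e1]
      nlinarith [hn'.1.2]
    refine ⟨mem_Ioo.2 ⟨by omega, hlt⟩, ?_⟩
    apply few_factors _ r ((X : ℝ) ^ κ) (Real.one_lt_rpow hXr hκ)
    · omega
    · have h5 : (2 * (j + 1) - 1) ^ 2 + n + h ≤ X ^ (2 * C + 4) := by
        refine hlt.le.trans ?_
        calc (2 * (j + 1) + 1) ^ 2 ≤ (3 * (j + 1)) ^ 2 := Nat.pow_le_pow_left (by omega) 2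
          _ ≤ (X * X ^ C) ^ 2 := Nat.pow_le_pow_left (Nat.mul_le_mul hX3 hkC) 2
          _ = X ^ (2 * C + 2) := by ring
          _ ≤ X ^ (2 * C + 4) := Nat.pow_le_pow_right (by omega) (by omega)
      have h6 : ((X : ℝ) ^ κ) ^ r = (X : ℝ) ^ (κ * r) := by
        rw [← Real.rpow_natCast, ← Real.rpow_mul (by linarith)]
      rw [h6]
      have h7 : ((2 * C + 4 : ℕ) : ℝ) ≤ κ * r := by
        rw [div_le_iff₀ hκ] at hr
        push_cast
        linarith
      calc (((2 * (j + 1) - 1) ^ 2 + n + h : ℕ) : ℝ) ≤ ((X ^ (2 * C + 4) : ℕ) : ℝ) := by exact_mod_cast h5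
        _ = (X : ℝ) ^ ((2 * C + 4 : ℕ) : ℝ) := by rw [Real.rpow_natCast]; push_cast; ring
        _ ≤ _ := Real.rpow_le_rpow_of_exponent_le hXr.le h7
    · intro p hp hd
      exact hn'.2 (j + 1) hkS h hh p hp hd
  · intro U hU hc'
    exact h2 U hU hc'

end Pool.Agent.Results.MP_5f6ee5_nt.RoughClusters
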